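import Mathlib

/-! Weighted barycentric coordinates for a two-stack order. -/

set_option autoImplicit false

namespace Pool.Agent.MP_9caa86_co.H45

/-- `v` has not been popped up to time `t`. -/
def Alive (cls : ℕ → Bool) (β : ℕ → ℕ) (v t : ℕ) : Prop :=
  ∀ w, v < w → w ≤ t → cls w ≠ cls v → v ≤ β w

/-- A two-stack order on `0, ..., N-1`. -/
structure St (N : ℕ) (cls : ℕ → Bool) (β : ℕ → ℕ) : Prop where
  lt : ∀ p, 1 ≤ p → p < N → β p < p
  cl : ∀ p, 1 ≤ p → p < N → cls (β p) ≠ cls p
  al : ∀ p, 1 ≤ p → p < N → Alive cls β (β p) p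

/-- Number of children of `v` after time `t`. -/
def J (N : ℕ) (β : ℕ → ℕ) (v t : ℕ) : ℕ :=
  ((Finset.range N).filter fun w => t < w ∧ β w = v).card

/-- The horizontal coordinate. -/
def XX (N : ℕ) (β : ℕ → ℕ) : ℕ → ℤ
  | 0 => 0
  | q + 1 => XX N β q + 2 * J N β q q + 1

/-- The coordinate of a vertex in its own class. -/
def ZZ (N : ℕ) (β : ℕ → ℕ) (w : ℕ) : ℤ :=
  if h : β w < w then XX N β w - ZZ N β (β w) - (J N β (β w) w + 1) else 0
termination_by w

/-- The coordinate of `z` in class `b`. -/
def co (N : ℕ) (cls : ℕ → Bool) (β : ℕ → ℕ) (z : ℕ) (b : Bool) : ℤ :=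
  if cls z = b then ZZ N β z else XX N β z - ZZ N β z

variable {N : ℕ} {cls : ℕ → Bool} {β : ℕ → ℕ}

lemma Alive.mono {v t t' : ℕ} (h : Alive cls β v t) (ht : t' ≤ t) : Alive cls β v t' :=
  fun w a b c => h w a (b.trans ht) c

lemma J_anti (v : ℕ) {t t' : ℕ} (h : t ≤ t') : J N β v t' ≤ J N β v t := by
  apply Finset.card_le_card
  intro w hw
  simp only [Finset.mem_filter] at hw ⊢
  exact ⟨hw.1, by omega, hw.2.2⟩

lemma J_succ {q : ℕ} (h : q + 1 < N) : J N β (β (q + 1)) q = J N β (β (q + 1)) (q + 1) + 1 := by
  unfold J
  rw [← Finset.card_insert_of_notMem (a := q + 1) (by simp)]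
  congr 1
  ext w
  simp only [Finset.mem_filter, Finset.mem_range, Finset.mem_insert]
  constructor
  · rintro ⟨a, b, c⟩
    by_cases hw : w = q + 1
    · exact Or.inl hw
    · exact Or.inr ⟨a, by omega, c⟩
  · rintro (rfl | ⟨a, b, c⟩)
    · exact ⟨h, by omega, rfl⟩
    · exact ⟨a, by omega, c⟩

lemma XX_succ (q : ℕ) : XX N β (q + 1) = XX N β q + 2 * J N β q q + 1 := rfl

lemma XX_lt {u w : ℕ} (h : u < w) : XX N β u + 2 * J N β u u + 1 ≤ XX N β w := by
  induction w, h using Nat.le_induction with
  | base => exact (XX_succ u).ge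
  | succ w _ ih => rw [XX_succ]; omega

lemma XX_le (z : ℕ) : XX N β z ≤ 2 * N + z := by
  have h : ∀ z, XX N β z ≤ 2 * (((Finset.range N).filter fun w => β w < z).card : ℤ) + z := by
    intro z
    induction z with
    | zero => simp [XX]
    | succ z ih =>
      have h1 : ((Finset.range N).filter fun w => β w < z).card + J N β z z ≤
          ((Finset.range N).filter fun w => β w < z + 1).card := by
        unfold J
        rw [← Finset.card_union_of_disjoint]
        · apply Finset.card_le_card
          intro w hw
          simp only [Finset.mem_filter, Finset.mem_union] at hw ⊢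
          rcases hw with hw | hw
          · exact ⟨hw.1, by omega⟩
          · exact ⟨hw.1, by omega⟩
        · rw [Finset.disjoint_left]
          intro w a b
          simp only [Finset.mem_filter] at a b
          omega
      rw [XX_succ]
      push_cast
      omega
  have h2 : ((Finset.range N).filter fun w => β w < z).card ≤ N :=
    (Finset.card_filter_le _ _).trans (by simp)
  have := h z
  omega

lemma ZZ_zero : ZZ N β 0 = 0 := by rw [ZZ]; simp

lemma co_self (z : ℕ) : co N cls β z (cls z) = ZZ N β z := by simp [co]

lemma co_ne {z : ℕ} {b : Bool} (h : cls z ≠ b) : co N cls β z b = XX N β z - ZZ N β z := by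
  simp [co, h]

lemma co_eq {z : ℕ} {b : Bool} (h : cls z = b) : co N cls β z b = ZZ N β z := by
  simp [co, h]

lemma co_add (z : ℕ) {b b' : Bool} (h : b ≠ b') :
    co N cls β z b + co N cls β z b' = XX N β z := by
  unfold co
  cases hz : cls z <;> cases b <;> cases b' <;> simp_all

lemma bool3 {a b c : Bool} (h1 : a ≠ b) (h2 : c ≠ b) : a = c := by
  cases a <;> cases b <;> cases c <;> simp_all

namespace St
variable (S : St N cls β)
include S

lemma ZZ_eq {w : ℕ} (h1 : 1 ≤ w) (h2 : w < N) :
    ZZ N β w = XX N β w - ZZ N β (β w) - (J N β (β w) w + 1) := by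
  rw [ZZ, dif_pos (S.lt w h1 h2)]

/-- The key inequality. -/
lemma K : ∀ z, z < N → ∀ v, v < z → Alive cls β v z →
    ZZ N β v + J N β v z < co N cls β z (cls v) := by
  intro z
  induction z using Nat.strong_induction_on with
  | _ z ih =>
    intro hz v hv ha
    obtain ⟨q, rfl⟩ : ∃ q, z = q + 1 := ⟨z - 1, by omega⟩
    have e := S.ZZ_eq (w := q + 1) (by omega) hz
    have hb := S.lt (q + 1) (by omega) hz
    have hc := S.cl (q + 1) (by omega) hz
    have hal := S.al (q + 1) (by omega) hz
    by_cases hcl : cls (q + 1) = cls v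
    · rw [co_eq hcl]
      have hJ := J_succ (β := β) hz
      have hX := XX_succ (N := N) (β := β) q
      have hadd := co_add (N := N) (cls := cls) (β := β) q (b := cls v) (b' := cls (β (q + 1)))
        (by rw [← hcl]; exact hc.symm)
      have hL : ZZ N β v + J N β v (q + 1) ≤ co N cls β q (cls v) + J N β q q := by
        rcases (show v = q ∨ v < q by omega) with rfl | hlt
        · rw [co_self]
          have := J_anti (N := N) (β := β) v (show v ≤ v + 1 by omega)
          omega
        · have := ih q (by omega) (by omega) v hlt (ha.mono (by omega))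
          have := J_anti (N := N) (β := β) v (show q ≤ q + 1 by omega)
          omega
      have hU : ZZ N β (β (q + 1)) + J N β (β (q + 1)) q ≤
          co N cls β q (cls (β (q + 1))) + J N β q q := by
        rcases (show β (q + 1) = q ∨ β (q + 1) < q by omega) with h | hlt
        · rw [h, co_self]
        · have := ih q (by omega) (by omega) _ hlt (hal.mono (by omega))
          omega
      omega
    · rw [co_ne hcl]
      have hle := ha (q + 1) hv le_rfl hcl
      rcases hle.eq_or_lt with h | hlt
      · rw [← h] at e
        omega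
      · have h1 := ih (β (q + 1)) hb (by omega) v hlt (ha.mono hb.le)
        have h2 : cls (β (q + 1)) = cls v := bool3 hc (Ne.symm hcl)
        rw [co_eq h2] at h1
        have := J_anti (N := N) (β := β) v hb.le
        omega

lemma U {q : ℕ} (hz : q + 1 < N) : XX N β (q + 1) - ZZ N β (q + 1) ≤
    co N cls β q (cls (β (q + 1))) + J N β q q := by
  have e := S.ZZ_eq (w := q + 1) (by omega) hz
  have hb := S.lt (q + 1) (by omega) hz
  have hal := S.al (q + 1) (by omega) hz
  have hJ := J_succ (β := β) hz
  rcases (show β (q + 1) = q ∨ β (q + 1) < q by omega) with h | hlt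
  · rw [h] at e hJ ⊢
    rw [co_self]
    omega
  · have := S.K q (by omega) _ hlt (hal.mono (by omega))
    omega

lemma co_nonneg : ∀ z, z < N → ∀ b, 0 ≤ co N cls β z b := by
  intro z
  induction z using Nat.strong_induction_on with
  | _ z ih =>
    intro hz b
    rcases Nat.eq_zero_or_pos z with rfl | hpos
    · simp [co, ZZ_zero, XX]
    obtain ⟨q, rfl⟩ : ∃ q, z = q + 1 := ⟨z - 1, by omega⟩
    have e := S.ZZ_eq (w := q + 1) (by omega) hz
    have hb := S.lt (q + 1) (by omega) hz
    have hc := S.cl (q + 1) (by omega) hz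
    by_cases hcl : cls (q + 1) = b
    · rw [co_eq hcl]
      have h1 := S.U hz
      have h2 := co_add (N := N) (cls := cls) (β := β) q hc
      have h3 := ih q (by omega) (by omega) (cls (q + 1))
      have hX := XX_succ (N := N) (β := β) q
      omega
    · rw [co_ne hcl]
      have h3 := ih _ hb (by omega) (cls (β (q + 1)))
      rw [co_self] at h3
      omega

lemma E1 {u w : ℕ} (huw : u < w) (hw : w < N) (hc : cls u ≠ cls w) (hb : β w < u) :
    XX N β w - ZZ N β w < ZZ N β u ∧ XX N β u - ZZ N β u < ZZ N β w := by
  obtain ⟨q, rfl⟩ : ∃ q, w = q + 1 := ⟨w - 1, by omega⟩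
  have e := S.ZZ_eq (w := q + 1) (by omega) hw
  have hal := S.al (q + 1) (by omega) hw
  have hJ := J_succ (β := β) hw
  have h1 := S.K u (by omega) _ hb (hal.mono huw.le)
  rw [co_eq (bool3 hc (S.cl (q + 1) (by omega) hw))] at h1
  have h2 := J_anti (N := N) (β := β) (β (q + 1)) (show u ≤ q by omega)
  have h3 := XX_lt (N := N) (β := β) huw
  omega

lemma E2 {w : ℕ} (h1 : 1 ≤ w) (hw : w < N) :
    XX N β (β w) - ZZ N β (β w) + (J N β (β w) w + 1) < ZZ N β w := by
  obtain ⟨q, rfl⟩ : ∃ q, w = q + 1 := ⟨w - 1, by omega⟩
  have e := S.ZZ_eq (w := q + 1) (by omega) hw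
  have hb := S.lt (q + 1) (by omega) hw
  have hJ := J_succ (β := β) hw
  have h2 := J_anti (N := N) (β := β) (β (q + 1)) (show β (q + 1) ≤ q by omega)
  have h3 := XX_lt (N := N) (β := β) hb
  omega

lemma Q {u w : ℕ} (huw : u < w) (hc : cls u ≠ cls w) (hb : β w < u)
    (ha : Alive cls β u (w - 1)) : ∀ z, z < N → w < z →
      (if cls z = cls u then ZZ N β u else ZZ N β w) < ZZ N β z ∨
      (if cls z = cls u then ZZ N β w else ZZ N β u) ≤ ZZ N β (β z) := by
  intro z
  induction z using Nat.strong_induction_on with
  | _ z ih =>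
    intro hz hwz
    have e := S.ZZ_eq (w := z) (by omega) hz
    have hbz := S.lt z (by omega) hz
    have hcz := S.cl z (by omega) hz
    have hal := S.al z (by omega) hz
    have hX := XX_lt (N := N) (β := β) hwz
    rcases lt_trichotomy (β z) w with hlt | heq | hgt
    · left
      have ew := S.ZZ_eq (w := w) (by omega) (by omega)
      by_cases hcl : cls z = cls u
      · rw [if_pos hcl]
        obtain ⟨q, rfl⟩ : ∃ q, w = q + 1 := ⟨w - 1, by omega⟩
        have hXq := XX_succ (N := N) (β := β) q
        have hct : cls u ≠ cls (β z) := by rw [← hcl]; exact hcz.symm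
        have hadd := co_add (N := N) (cls := cls) (β := β) q hct
        have h1 : ZZ N β u ≤ co N cls β q (cls u) := by
          rcases (show u = q ∨ u < q by omega) with rfl | h
          · rw [co_self]
          · have := S.K q (by omega) u h ha
            omega
        have hJ : J N β (β z) z + 1 ≤ J N β (β z) q := by
          obtain ⟨r, rfl⟩ : ∃ r, z = r + 1 := ⟨z - 1, by omega⟩
          have := J_succ (β := β) hz
          have := J_anti (N := N) (β := β) (β (r + 1)) (show q ≤ r by omega)
          omega
        have h2 : ZZ N β (β z) + J N β (β z) q ≤ co N cls β q (cls (β z)) + J N β q q := by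
          rcases (show β z = q ∨ β z < q by omega) with h | h
          · rw [h, co_self]
          · have := S.K q (by omega) _ h (hal.mono (by omega))
            omega
        omega
      · rw [if_neg hcl]
        have hzw : cls z = cls w := bool3 hcl hc.symm
        have hle := hal w hlt hwz.le (by rw [← hzw]; exact hcz.symm)
        rcases hle.eq_or_lt with h | h
        · rw [← h] at ew
          have := J_anti (N := N) (β := β) (β z) hwz.le
          omega
        · have h1 := S.K (β w) (by omega) _ h (hal.mono (by omega))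
          have h2 : cls (β w) = cls (β z) :=
            bool3 (S.cl w (by omega) (by omega)) (by rw [← hzw]; exact hcz)
          rw [co_eq h2] at h1
          have := J_anti (N := N) (β := β) (β z) (show β w ≤ z by omega)
          omega
    · right
      have : cls z = cls u := bool3 (b := cls w) (by rw [← heq]; exact hcz.symm) hc
      rw [if_pos this, heq]
    · have h1 := ih (β z) hbz (by omega) hgt
      have h2 := S.E2 (w := z) (by omega) hz
      have e2 := S.ZZ_eq (w := β z) (by omega) (by omega)
      by_cases hcl : cls z = cls u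
      · have : cls (β z) ≠ cls u := by rw [← hcl]; exact hcz
        rw [if_neg this, if_neg this] at h1
        rw [if_pos hcl, if_pos hcl]
        omega
      · have : cls (β z) = cls u := bool3 hcz (Ne.symm hcl)
        rw [if_pos this, if_pos this] at h1
        rw [if_neg hcl, if_neg hcl]
        omega

/-- Edges are monotone for the difference of the two coordinates. -/
lemma up {u w : ℕ} (huw : u < w) (hw : w < N) (hc : cls u ≠ cls w) (hb : β w ≤ u) :
    co N cls β u (cls w) - co N cls β u (cls u) < co N cls β w (cls w) - co N cls β w (cls u) := by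
  rw [co_self, co_self, co_ne hc, co_ne hc.symm]
  rcases hb.eq_or_lt with h | h
  · have h1 := S.E2 (w := w) (by omega) hw
    have h2 := S.ZZ_eq (w := w) (by omega) hw
    rw [h] at h1 h2
    omega
  · have := S.E1 huw hw hc h
    omega

/-- The barycentric property. -/
lemma bary {u w : ℕ} (huw : u < w) (hw : w < N) (hc : cls u ≠ cls w) (hb : β w ≤ u)
    (ha : Alive cls β u (w - 1)) {z : ℕ} (hz : z < N) (h1 : z ≠ u) (h2 : z ≠ w) :
    (XX N β z < XX N β u ∧ XX N β z < XX N β w) ∨
    ∃ b, co N cls β u b < co N cls β z b ∧ co N cls β w b < co N cls β z b := by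
  have hX := XX_lt (N := N) (β := β) huw
  rcases lt_or_gt_of_ne h1 with a | a
  · have := XX_lt (N := N) (β := β) a
    left; omega
  right
  have ew := S.ZZ_eq (w := w) (by omega) hw
  rcases lt_or_gt_of_ne h2 with b | b
  · refine ⟨cls u, ?_⟩
    have h3 := S.K z hz u a (ha.mono (by omega))
    rw [co_self, co_ne hc.symm]
    rcases hb.eq_or_lt with h | h
    · obtain ⟨q, rfl⟩ : ∃ q, w = q + 1 := ⟨w - 1, by omega⟩
      have hJ := J_succ (β := β) hw
      have := J_anti (N := N) (β := β) (β (q + 1)) (show z ≤ q by omega)
      rw [h] at hJ this ew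
      omega
    · have := S.E1 huw hw hc h
      omega
  · have hX2 := XX_lt (N := N) (β := β) b
    have hadd := co_add (N := N) (cls := cls) (β := β) z hc
    rcases hb.eq_or_lt with h | h
    · have h4 := S.E2 (w := w) (by omega) hw
      rw [h] at h4 ew
      by_cases h5 : XX N β w - ZZ N β w < co N cls β z (cls u)
      · refine ⟨cls u, ?_⟩
        rw [co_self, co_ne hc.symm]
        omega
      · refine ⟨cls w, ?_⟩
        rw [co_self, co_ne hc]
        omega
    · have h4 := S.E1 huw hw hc h
      have h5 := S.Q huw hc h ha z hz b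
      have ez := S.ZZ_eq (w := z) (by omega) hz
      by_cases hcl : cls z = cls u
      · rw [if_pos hcl, if_pos hcl] at h5
        rcases h5 with h5 | h5
        · refine ⟨cls u, ?_⟩
          rw [co_self, co_ne hc.symm, co_eq hcl]
          omega
        · refine ⟨cls w, ?_⟩
          rw [co_self, co_ne hc, co_ne (by rw [hcl]; exact hc)]
          omega
      · rw [if_neg hcl, if_neg hcl] at h5
        rcases h5 with h5 | h5
        · refine ⟨cls w, ?_⟩
          rw [co_self, co_ne hc, co_eq (bool3 hcl hc.symm)]
          omega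
        · refine ⟨cls u, ?_⟩
          rw [co_self, co_ne hc.symm, co_ne hcl]
          omega

end St

end Pool.Agent.MP_9caa86_co.H45
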