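import Pool.Agent.MP_9caa86_co.H16.Defs

set_option autoImplicit false

namespace Pool.Agent.MP_9caa86_co.H45

open Pool.Agent.MP_9caa86_co.H16

/-- There is an upward planar straight-line grid drawing inside a `W` by `H` axis-parallel box. -/
def StraightDrawingIn {V : Type} (E : V → V → Prop) (W H : ℕ) : Prop :=
  ∃ (pos : V → ℤ × ℤ) (a b : ℤ),
    (∀ u v, E u v → (pos u).2 < (pos v).2) ∧
    Planar E (fun v => toR (pos v)) (fun u v => segment ℝ (toR (pos u)) (toR (pos v))) ∧
    ∀ v, pos v ∈ Set.Icc a (a + W) ×ˢ Set.Icc b (b + H)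

end Pool.Agent.MP_9caa86_co.H45
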