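import Pool.Agent.MP_9caa86_co.H16.Core
import Pool.Agent.MP_9caa86_co.H45.Defs
import Pool.Agent.MP_9caa86_co.H45.Coord

/-! From a two-page vertex order to an upward straight-line grid drawing. -/

set_option autoImplicit false

namespace Pool.Agent.MP_9caa86_co.H45

open Pool.Agent.MP_9caa86_co.H16

lemma StraightDrawingIn.poly {V : Type} {E : V → V → Prop} {W H : ℕ}
    (h : StraightDrawingIn E W H) : PolyDrawingIn E W H := by
  obtain ⟨pos, a, b, h1, h2, h3⟩ := h
  refine ⟨pos, fun _ _ => 1, fun u v i => if i = 0 then pos u else pos v, a, b,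
    fun u v h => ⟨by simp, by simp, fun i hi => ?_⟩, ?_, h3, fun u v _ i _ => ?_⟩
  · obtain rfl : i = 0 := by simpa using hi
    simpa using h1 u v h
  · have : (fun u v : V => chain 1 fun i => if i = 0 then pos u else pos v) =
        fun u v => segment ℝ (toR (pos u)) (toR (pos v)) := by
      funext u v
      ext z
      simp [chain]
    rw [this]
    exact h2
  · by_cases hi : i = 0
    · simpa [hi] using h3 u
    · simpa [hi] using h3 v

/-- Schnyder's planarity criterion. -/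
lemma planar_of_bary {V : Type} {E : V → V → Prop} (hB : IsBipDAG E) (pos : V → ℝ × ℝ)
    (hinj : Function.Injective pos) (α γ : Fin 3 → ℝ)
    (h : ∀ u v z, E u v → z ≠ u → z ≠ v → ∃ k,
      α k * (pos u).1 + γ k * (pos u).2 < α k * (pos z).1 + γ k * (pos z).2 ∧
      α k * (pos v).1 + γ k * (pos v).2 < α k * (pos z).1 + γ k * (pos z).2) :
    Planar E pos (fun u v => segment ℝ (pos u) (pos v)) := by
  obtain ⟨S, hS⟩ := hB
  set ℓ : Fin 3 → ℝ × ℝ → ℝ := fun k p => α k * p.1 + γ k * p.2 with hℓ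
  have h' : ∀ u v z, E u v → z ≠ u → z ≠ v → ∃ k,
      ℓ k (pos u) < ℓ k (pos z) ∧ ℓ k (pos v) < ℓ k (pos z) := h
  have seg : ∀ p q z : ℝ × ℝ, z ∈ segment ℝ p q → ∃ θ : ℝ, 0 ≤ θ ∧ θ ≤ 1 ∧ (θ = 0 → z = p) ∧
      ∀ k, ℓ k z = (1 - θ) * ℓ k p + θ * ℓ k q := by
    intro p q z hz
    obtain ⟨θ, h0, h1, hx, hy⟩ := mem_seg.1 hz
    refine ⟨θ, h0, h1, fun h => Prod.ext (by rw [hx, h]; ring) (by rw [hy, h]; ring), fun k => ?_⟩
    simp only [hℓ, hx, hy]; ring
  have fork : ∀ (p q q' z : ℝ × ℝ) (k k' : Fin 3), z ∈ segment ℝ p q → z ∈ segment ℝ p q' →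
      ℓ k p < ℓ k q → ℓ k q' < ℓ k q → ℓ k' p < ℓ k' q' → ℓ k' q < ℓ k' q' → z = p := by
    intro p q q' z k k' hz hz' a1 a2 a3 a4
    obtain ⟨θ, h0, -, e, f⟩ := seg _ _ _ hz
    obtain ⟨θ', h0', -, e', f'⟩ := seg _ _ _ hz'
    rcases h0.eq_or_lt with b | b
    · exact e b.symm
    rcases h0'.eq_or_lt with b' | b'
    · exact e' b'.symm
    exfalso
    have c1 : θ < θ' := by
      by_contra hc
      have := f k; have := f' k
      nlinarith [mul_pos b' (sub_pos.2 a2), mul_nonneg (sub_nonneg.2 (not_lt.1 hc)) (sub_pos.2 a1).le]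
    have := f k'; have := f' k'
    nlinarith [mul_pos b (sub_pos.2 a4), mul_pos (sub_pos.2 c1) (sub_pos.2 a3)]
  have sep : ∀ (p q p' q' z : ℝ × ℝ) (k : Fin 3), z ∈ segment ℝ p q → z ∈ segment ℝ p' q' →
      ℓ k p' < ℓ k p → ℓ k q' < ℓ k p → ℓ k p' < ℓ k q → ℓ k q' < ℓ k q → False := by
    intro p q p' q' z k hz hz' a1 a2 a3 a4
    obtain ⟨θ, h0, h1, -, f⟩ := seg _ _ _ hz
    obtain ⟨θ', h0', h1', -, f'⟩ := seg _ _ _ hz'
    have e := f k
    have e' := f' k
    have m1 : max (ℓ k p') (ℓ k q') < min (ℓ k p) (ℓ k q) := by simp [a1, a2, a3, a4]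
    have m2 : min (ℓ k p) (ℓ k q) ≤ ℓ k z := by
      nlinarith [min_le_left (ℓ k p) (ℓ k q), min_le_right (ℓ k p) (ℓ k q)]
    have m3 : ℓ k z ≤ max (ℓ k p') (ℓ k q') := by
      nlinarith [le_max_left (ℓ k p') (ℓ k q'), le_max_right (ℓ k p') (ℓ k q')]
    linarith
  refine ⟨hinj, fun u v w huv hw => ?_, fun u v u' v' huv huv' hne p hp hp' => ?_⟩
  · by_contra hc
    push Not at hc
    obtain ⟨k, a, b⟩ := h' u v w huv hc.1 hc.2
    obtain ⟨θ, h0, h1, -, f⟩ := seg _ _ _ hw
    have := f k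
    nlinarith [mul_nonneg h0 (sub_pos.2 b).le, mul_nonneg (sub_nonneg.2 h1) (sub_pos.2 a).le,
      lt_min (sub_pos.2 a) (sub_pos.2 b), min_le_left (ℓ k (pos w) - ℓ k (pos u))
      (ℓ k (pos w) - ℓ k (pos v)), min_le_right (ℓ k (pos w) - ℓ k (pos u))
      (ℓ k (pos w) - ℓ k (pos v))]
  have n1 : u ≠ v' := fun e => (hS _ _ huv').2 (e ▸ (hS _ _ huv).1)
  have n2 : u' ≠ v := fun e => (hS _ _ huv).2 (e ▸ (hS _ _ huv').1)
  by_cases hu : u = u'
  · subst hu
    have hv : v ≠ v' := fun e => hne (by rw [e])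
    obtain ⟨k, a, b⟩ := h' u v' v huv' n2.symm hv
    obtain ⟨k', a', b'⟩ := h' u v v' huv n1.symm hv.symm
    exact ⟨u, Or.inl rfl, Or.inl rfl, fork _ _ _ _ k k' hp hp' a b a' b'⟩
  by_cases hv : v = v'
  · subst hv
    obtain ⟨k, a, b⟩ := h' u' v u huv' hu n1
    obtain ⟨k', a', b'⟩ := h' u v u' huv (Ne.symm hu) n2
    beta_reduce at hp hp'
    rw [segment_symm] at hp hp'
    exact ⟨v, Or.inr rfl, Or.inr rfl, fork _ _ _ _ k k' hp hp' b a b' a'⟩
  exfalso
  obtain ⟨k1, a1, b1⟩ := h' u' v' u huv' hu n1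
  obtain ⟨k2, a2, b2⟩ := h' u' v' v huv' n2.symm hv
  obtain ⟨k3, a3, b3⟩ := h' u v u' huv (Ne.symm hu) n2
  obtain ⟨k4, a4, b4⟩ := h' u v v' huv n1.symm (Ne.symm hv)
  have d13 : k1 ≠ k3 := by rintro rfl; linarith
  have d14 : k1 ≠ k4 := by rintro rfl; linarith
  have d23 : k2 ≠ k3 := by rintro rfl; linarith
  have d24 : k2 ≠ k4 := by rintro rfl; linarith
  rcases (show k1 = k2 ∨ k3 = k4 by omega) with rfl | rfl
  · exact sep _ _ _ _ p k1 hp hp' a1 b1 a2 b2
  · exact sep _ _ _ _ p k3 hp' hp a3 b3 a4 b4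

/-- The stack pointer of a two-page order. -/
lemma exists_St (N : ℕ) (cls : ℕ → Bool) (A : ℕ → ℕ → Prop) (h0 : cls 0 = false)
    (h1 : cls 1 = true) (hA : ∀ u w, A u w → 2 ≤ u ∧ u < w ∧ cls u ≠ cls w)
    (hN : ∀ a c a' c', A a c → A a' c' → a < a' → a' < c → c < c' → cls c ≠ cls c') :
    ∃ β, St N cls β ∧ ∀ u w, A u w → β w ≤ u ∧ Alive cls β u (w - 1) := by
  classical
  let unc : ℕ → ℕ → Prop := fun u w => ∀ b w', A b w' → b < u → u < w' → w' < w → cls w' ≠ cls w
  let good : ℕ → ℕ → Prop := fun w u => u < w ∧ cls u ≠ cls w ∧ unc u w ∧ ∀ a, A a w → u ≤ a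
  let β : ℕ → ℕ := fun w => Nat.findGreatest (good w) w
  have hex : ∀ w, 1 ≤ w → good w (β w) := by
    intro w hw
    cases hc : cls w
    · have : w ≠ 1 := by rintro rfl; rw [h1] at hc; exact absurd hc (by decide)
      refine Nat.findGreatest_spec (m := 1) hw ⟨by omega, by rw [h1, hc]; decide,
        fun b w' hb hlt => ?_, fun a ha => ?_⟩
      · have := hA _ _ hb; omega
      · have := hA _ _ ha; omega
    · exact Nat.findGreatest_spec (m := 0) (by omega) ⟨by omega, by rw [h0, hc]; decide,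
        fun b w' hb hlt => by omega, fun a ha => by omega⟩
  have hal : ∀ u w, cls u ≠ cls w → unc u w → Alive cls β u (w - 1) := by
    intro u w hc hu w' a b c
    have hw : cls w' = cls w := bool3 c hc.symm
    refine Nat.le_findGreatest a.le ⟨a, c.symm, fun b' w'' e f g i => ?_, fun a' ha' => ?_⟩
    · rw [hw]; exact hu b' w'' e f g (by omega)
    · by_contra hlt
      exact hu a' w' ha' (by omega) a (by omega) hw
  refine ⟨β, ⟨fun p a _ => (hex p a).1, fun p a _ => (hex p a).2.1, fun p a _ w b c d => ?_⟩,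
    fun u w h => ⟨(hex w (by have := hA _ _ h; omega)).2.2.2 u h, ?_⟩⟩
  · rcases c.eq_or_lt with rfl | c
    · exact le_rfl
    · exact hal _ p (hex p a).2.1 (hex p a).2.2.1 w b (by omega) d
  · exact hal u w (hA _ _ h).2.2 fun b w' e f g i => hN b w' u w e h f g i

/-- A bipartite DAG with a two-page order has an upward straight-line drawing of small area. -/
theorem draw {n : ℕ} {E : Fin n → Fin n → Prop} (hB : IsBipDAG E) (k : Fin n → ℕ)
    (hinj : Function.Injective k) (hk : ∀ v, k v < n)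
    (hP : ∀ s t s' t', E s t → E s' t' → ¬ (k t < k t' ∧ k t' < k s ∧ k s < k s'))
    (hQ : ∀ s t s' t', E s t → E s' t' → ¬ (k s < k s' ∧ k s' < k t ∧ k t < k t')) :
    StraightDrawingIn E (3 * (n + 2)) (6 * (n + 2)) := by
  classical
  obtain ⟨S, hS⟩ := id hB
  let cls : ℕ → Bool := fun z => decide (z = 1 ∨ ∃ v ∈ S, k v + 2 = z)
  have c1 : ∀ v ∈ S, cls (k v + 2) = true := fun v hv => by
    simp only [cls, decide_eq_true_eq]; exact Or.inr ⟨v, hv, rfl⟩
  have c2 : ∀ v, v ∉ S → cls (k v + 2) = false := fun v hv => by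
    simp only [cls, decide_eq_false_iff_not]
    rintro (h | ⟨w, hw, h⟩)
    · omega
    · exact hv (hinj (show k w = k v by omega) ▸ hw)
  let A : ℕ → ℕ → Prop := fun u w => u < w ∧ ∃ s t, E s t ∧
    ((u = k s + 2 ∧ w = k t + 2) ∨ (u = k t + 2 ∧ w = k s + 2))
  obtain ⟨β, St, hE⟩ := exists_St (n + 2) cls A (by simp [cls]) (by simp [cls])
    (by
      rintro u w ⟨h, s, t, e, ⟨rfl, rfl⟩ | ⟨rfl, rfl⟩⟩ <;>
      refine ⟨by omega, h, ?_⟩ <;> rw [c1 _ (hS _ _ e).1, c2 _ (hS _ _ e).2] <;> decide)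
    (by
      rintro a c a' c' ⟨h, s, t, e, ⟨rfl, rfl⟩ | ⟨rfl, rfl⟩⟩
        ⟨h', s', t', e', ⟨rfl, rfl⟩ | ⟨rfl, rfl⟩⟩ x y z
      · exact absurd ⟨by omega, by omega, by omega⟩ (hQ s t s' t' e e')
      · rw [c2 _ (hS _ _ e).2, c1 _ (hS _ _ e').1]; decide
      · rw [c1 _ (hS _ _ e).1, c2 _ (hS _ _ e').2]; decide
      · exact absurd ⟨by omega, by omega, by omega⟩ (hP s t s' t' e e'))
  let X : Fin n → ℤ := fun v => XX (n + 2) β (k v + 2)
  let c : Fin n → Bool → ℤ := fun v b => co (n + 2) cls β (k v + 2) b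
  have hadd : ∀ v, c v false + c v true = X v := fun v => co_add _ (by decide)
  have hnn : ∀ v b, 0 ≤ c v b := fun v b => St.co_nonneg _ (by have := hk v; omega) b
  have hle : ∀ v, X v ≤ 3 * (n + 2) := fun v => by
    have h1 := XX_le (N := n + 2) (β := β) (k v + 2)
    have h2 := hk v
    simp only [X]
    push_cast at h1
    omega
  have hne : ∀ s t, E s t → k s ≠ k t := fun s t e h => (hS _ _ e).2 (hinj h ▸ (hS _ _ e).1)
  have hup : ∀ s t, E s t → c s false - c s true < c t false - c t true := by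
    intro s t e
    have a := c1 _ (hS _ _ e).1
    have b := c2 _ (hS _ _ e).2
    rcases lt_or_gt_of_ne (hne s t e) with h | h
    · have := St.up (u := k s + 2) (w := k t + 2) (by omega) (by have := hk t; omega)
        (by rw [a, b]; decide) (hE _ _ ⟨by omega, s, t, e, Or.inl ⟨rfl, rfl⟩⟩).1
      rw [a, b] at this
      exact this
    · have := St.up (u := k t + 2) (w := k s + 2) (by omega) (by have := hk s; omega)
        (by rw [a, b]; decide) (hE _ _ ⟨by omega, s, t, e, Or.inr ⟨rfl, rfl⟩⟩).1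
      rw [a, b] at this
      simp only [c]
      omega
  have hbary : ∀ s t z, E s t → z ≠ s → z ≠ t → (X z < X s ∧ X z < X t) ∨
      ∃ b, c s b < c z b ∧ c t b < c z b := by
    intro s t z e z1 z2
    have a := c1 _ (hS _ _ e).1
    have b := c2 _ (hS _ _ e).2
    have z3 : k z + 2 ≠ k s + 2 := fun h => z1 (hinj (by omega))
    have z4 : k z + 2 ≠ k t + 2 := fun h => z2 (hinj (by omega))
    have z5 : k z + 2 < n + 2 := by have := hk z; omega
    rcases lt_or_gt_of_ne (hne s t e) with h | h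
    · have f := hE _ _ ⟨show k s + 2 < k t + 2 by omega, s, t, e, Or.inl ⟨rfl, rfl⟩⟩
      exact St.bary (by omega) (by have := hk t; omega) (by rw [a, b]; decide) f.1 f.2 z5 z3 z4
    · have f := hE _ _ ⟨show k t + 2 < k s + 2 by omega, s, t, e, Or.inr ⟨rfl, rfl⟩⟩
      rcases St.bary (by omega) (by have := hk s; omega) (by rw [a, b]; decide) f.1 f.2 z5 z4 z3
        with g | ⟨b, g⟩
      · exact Or.inl g.symm
      · exact Or.inr ⟨b, g.symm⟩
  refine ⟨fun v => (X v, c v false - c v true), 0, -(3 * (n + 2)), hup, ?_, fun v => ?_⟩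
  · refine planar_of_bary hB _ (fun u v h => ?_) ![-1, 1, 1] ![0, 1, -1] fun s t z e z1 z2 => ?_
    · have h1 : X u = X v := by simpa [toR] using congrArg Prod.fst h
      by_contra huv
      rcases lt_or_gt_of_ne (fun h => huv (hinj h) : k u ≠ k v) with a | a
      · have := XX_lt (N := n + 2) (β := β) (show k u + 2 < k v + 2 by omega)
        simp only [X] at h1
        omega
      · have := XX_lt (N := n + 2) (β := β) (show k v + 2 < k u + 2 by omega)
        simp only [X] at h1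
        omega
    · have a1 := hadd s
      have a2 := hadd t
      have a3 := hadd z
      rcases hbary s t z e z1 z2 with g | ⟨b, g⟩
      · refine ⟨0, ?_⟩
        simp only [toR, Matrix.cons_val_zero]
        constructor <;> norm_cast <;> omega
      · cases b
        · refine ⟨1, ?_⟩
          simp only [toR, Matrix.cons_val_one, Matrix.cons_val_zero]
          constructor <;> norm_cast <;> omega
        · refine ⟨2, ?_⟩
          simp only [toR, Matrix.cons_val]
          constructor <;> norm_cast <;> omega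
  · have a1 := hadd v
    have a2 := hnn v false
    have a3 := hnn v true
    have a4 := hle v
    simp only [Set.mem_prod, Set.mem_Icc]
    push_cast
    omega

end Pool.Agent.MP_9caa86_co.H45
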